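import Mathlib
import Pool.Agent.H764R2.NB5

set_option autoImplicit false

open Metric
open scoped ContDiff

namespace Pool.Agent.Results.MP_ca9574_an.NaturalBoundary

/-- `f ∈ A^∞(B)` for the open unit ball `B` of `ℂⁿ`: `f` is continuous on the closed ball,
holomorphic in the open ball, and for every order `m` the `m`-th derivative of `f` (that is, the
collection of all its partial derivatives of order `m`, with respect to the real coordinates)
extends continuously from the open ball to the closed ball. -/
def AInfty (n : ℕ) (f : EuclideanSpace ℂ (Fin n) → ℂ) : Prop :=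
  ContinuousOn f (closedBall 0 1) ∧ DifferentiableOn ℂ f (ball 0 1) ∧
    ∀ m : ℕ, ∃ G : EuclideanSpace ℂ (Fin n) →
        ContinuousMultilinearMap ℝ (fun _ : Fin m => EuclideanSpace ℂ (Fin n)) ℂ,
      ContinuousOn G (closedBall 0 1) ∧
        ∀ z ∈ ball (0 : EuclideanSpace ℂ (Fin n)) 1, G z = iteratedFDeriv ℝ m f z

/-- The function `g` on the open unit disc has the unit circle as its natural boundary: for no
point `τ` of the circle is there an open disc containing `τ` and a holomorphic function on it which
agrees with `g` on the part of that disc inside the unit disc. -/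
def CircleIsNaturalBoundary (g : ℂ → ℂ) : Prop :=
  ∀ τ : ℂ, ‖τ‖ = 1 → ¬ ∃ (c : ℂ) (r : ℝ) (h : ℂ → ℂ), τ ∈ ball c r ∧
    DifferentiableOn ℂ h (ball c r) ∧ ∀ l ∈ ball c r ∩ ball 0 1, h l = g l

/-- Property (NB): `f ∘ Φ` has the unit circle as its natural boundary for every nonconstant
complex affine map `Φ l = a + l • b` that maps the unit circle into the unit sphere. -/
def PropertyNB (n : ℕ) (f : EuclideanSpace ℂ (Fin n) → ℂ) : Prop :=
  ∀ a b : EuclideanSpace ℂ (Fin n), b ≠ 0 →
    (∀ l : ℂ, ‖l‖ = 1 → a + l • b ∈ sphere (0 : EuclideanSpace ℂ (Fin n)) 1) →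
      CircleIsNaturalBoundary fun l => f (a + l • b)

/-- For every `n > 1` there is a function in `A^∞(B)`, hence in `A(B)`, with property (NB). -/
theorem result : ∀ n : ℕ, 1 < n →
    ∃ f : EuclideanSpace ℂ (Fin n) → ℂ, AInfty n f ∧ PropertyNB n f := by
  intro n _
  obtain ⟨f, hf1, hf2, hf3⟩ := Pool.Agent.H764R2.NB.exists_nb (EuclideanSpace ℂ (Fin n))
  refine ⟨f, ⟨hf1.continuous.continuousOn, hf2, fun m => ⟨iteratedFDeriv ℝ m f,
    (hf1.continuous_iteratedFDeriv (by exact_mod_cast le_top)).continuousOn, fun _ _ => rfl⟩⟩, ?_⟩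
  intro a b hb hab τ hτ
  exact hf3 a b hb (fun l hl => by simpa using hab l hl) τ hτ

end Pool.Agent.Results.MP_ca9574_an.NaturalBoundary
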